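import Pool.Agent.H622R2.Exp.FinalE

/-!
# How many oracles make `E` and `NE` equal?

For every gauge `f`, the set of the oracles `A` with `E^A = NE^A` is a null set for `f` if and
only if for every `ε > 0` there are infinitely many `N` with `f N ≤ (log N) ^ ε`. The same holds
for every set of oracles between `{A | E^A = ESPACE^A}` and `{A | E^A = NE^A}`. The set of the
oracles `A` with `EXP^A = NEXP^A` is a null set for `f` if and only if for every `ε > 0` there are
infinitely many `N` with `f N ≤ 2 ^ ((log log N) ^ ε)`.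
-/

namespace Pool.Agent.Results.MP_8c2300_lc.GaugeThreshold

open Pool.Agent.NPC Pool.Agent.H620R2.Gauge Pool.Agent.H622R2.Exp Filter

theorem result (f : ℕ → ℝ) :
    (∀ O : Set Oracle,
      (∀ A : Oracle, (∀ L, InSpace Lin A L → InTime Lin A L) → A ∈ O) →
      (∀ A ∈ O, ∀ L, InNTime Lin A L → InTime Lin A L) →
      (Null f O ↔
        ∀ ε : ℝ, 0 < ε → ∃ᶠ N : ℕ in atTop, f N ≤ (Real.logb 2 N) ^ ε)) ∧
    (Null f {A : Oracle | ∀ L, InTime Lin A L ↔ InNTime Lin A L} ↔
      ∀ ε : ℝ, 0 < ε → ∃ᶠ N : ℕ in atTop, f N ≤ (Real.logb 2 N) ^ ε) ∧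
    (Null f {A : Oracle | ∀ L, InTime Pol A L ↔ InNTime Pol A L} ↔
      ∀ ε : ℝ, 0 < ε → ∃ᶠ N : ℕ in atTop,
        f N ≤ 2 ^ (Real.logb 2 (Real.logb 2 N)) ^ ε) :=
  resE f

end Pool.Agent.Results.MP_8c2300_lc.GaugeThreshold
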